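import Pool.Agent.Helper13.Lor.ALG
import Pool.Agent.Helper77.Lor.LAT8
import Pool.Agent.Helper77.Lor.LOW8

set_option autoImplicit false

/-!
# Reduction theory for `O⁺(U ⊕ E₈)` on hyperbolic 9-space
-/

namespace Pool.Agent.Helper86.Lor

open Pool.Agent.Helper10.Lor Topology

open Pool.Agent.Helper13.Lor (act_mem vec_act act_mul act_T T_mem_OL uval_act uval_w0 inner_int)
open Pool.Agent.Helper77.Lor (hv hv_apply hv_mem wv wv_mem uval_wv AS AS_par AS_sum AC AC_par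
  AC_sum dist_AS dist_AC evenLat_E8)

theorem inner_hv (x : E 8) (A : Fin 8 → ℤ) :
    inner ℝ x (hv A) = ∑ i, x i * ((A i : ℝ) / 2) := by
  rw [PiLp.inner_apply]
  refine Finset.sum_congr rfl (fun i _ => ?_)
  rw [hv_apply]
  simp [mul_comm]

theorem norm_hv (A : Fin 8 → ℤ) (h : ∑ i, A i ^ 2 = 8) : ‖hv A‖ ^ 2 = 2 := by
  rw [EuclideanSpace.real_norm_sq_eq]
  have h1 : ∑ i, (hv A i) ^ 2 = ((∑ i, A i ^ 2 : ℤ) : ℝ) / 4 := by
    push_cast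
    rw [Finset.sum_div]
    refine Finset.sum_congr rfl (fun i _ => ?_)
    rw [hv_apply]
    ring
  rw [h1, h]
  norm_num

/-- reflection in a root -/
noncomputable def Rf (α : E 8) (h : ‖α‖ ^ 2 = 2) : LV 8 ≃ₗ[ℝ] LV 8 where
  toFun x := (x.1, x.2.1, x.2.2 - (inner ℝ x.2.2 α : ℝ) • α)
  map_add' x y := by
    refine Prod.ext ?_ (Prod.ext ?_ ?_)
    · rfl
    · rfl
    · simp only [Prod.snd_add, inner_add_left, add_smul]
      abel
  map_smul' c x := by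
    refine Prod.ext ?_ (Prod.ext ?_ ?_)
    · rfl
    · rfl
    · simp only [Prod.smul_snd, RingHom.id_apply, real_inner_smul_left, smul_sub, mul_smul]
  invFun x := (x.1, x.2.1, x.2.2 - (inner ℝ x.2.2 α : ℝ) • α)
  left_inv x := by
    refine Prod.ext ?_ (Prod.ext ?_ ?_)
    · rfl
    · rfl
    · simp only [inner_sub_left, real_inner_smul_left, real_inner_self_eq_norm_sq, h]
      module
  right_inv x := by
    refine Prod.ext ?_ (Prod.ext ?_ ?_)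
    · rfl
    · rfl
    · simp only [inner_sub_left, real_inner_smul_left, real_inner_self_eq_norm_sq, h]
      module

theorem Rf_apply (α : E 8) (h : ‖α‖ ^ 2 = 2) (x : LV 8) :
    Rf α h x = (x.1, x.2.1, x.2.2 - (inner ℝ x.2.2 α : ℝ) • α) := rfl

theorem Rf_Rf (α : E 8) (h : ‖α‖ ^ 2 = 2) (x : LV 8) : Rf α h (Rf α h x) = x :=
  (Rf α h).left_inv x

theorem Rf_lat {α : E 8} (h : ‖α‖ ^ 2 = 2) (hα : α ∈ E8) {x : LV 8} (hx : x ∈ lat E8) :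
    Rf α h x ∈ lat E8 := by
  obtain ⟨b, hb⟩ := evenLat_E8
  obtain ⟨h1, h2, h3⟩ := hx
  refine ⟨h1, h2, ?_⟩
  rw [Rf_apply]
  obtain ⟨m, hm⟩ := inner_int hb h3 hα
  dsimp only
  rw [hm]
  have : ((m : ℝ)) • α = m • α := Int.cast_smul_eq_zsmul ℝ m α
  rw [this]
  exact E8.sub_mem h3 (E8.zsmul_mem hα m)

theorem Rf_mem {α : E 8} (h : ‖α‖ ^ 2 = 2) (hα : α ∈ E8) : Rf α h ∈ OL E8 := by
  refine ⟨⟨fun x y => ?_, fun x _ hx1 => ?_⟩, fun x => ⟨fun hx => ?_, fun hx => Rf_lat h hα hx⟩⟩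
  · rw [Rf_apply, Rf_apply]
    unfold form
    dsimp only
    rw [inner_sub_left, inner_sub_right, inner_sub_right, real_inner_smul_left,
      real_inner_smul_right, real_inner_smul_left, real_inner_smul_right,
      real_inner_self_eq_norm_sq, h, real_inner_comm α y.2.2]
    ring
  · rw [Rf_apply]
    exact hx1
  · have := Rf_lat h hα hx
    rwa [Rf_Rf] at this

theorem act_Rf (α : E 8) (h : ‖α‖ ^ 2 = 2) {q : Pt 8} (hq : q ∈ UH 8) :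
    act (Rf α h) q = (q.1 - (inner ℝ q.1 α : ℝ) • α, q.2) := by
  have hr : q.2 ≠ 0 := ne_of_gt hq
  unfold act
  rw [Rf_apply]
  unfold vec pnt
  dsimp only
  refine Prod.ext ?_ ?_
  · dsimp only
    rw [real_inner_smul_left, one_div_one_div, smul_sub, smul_smul, smul_smul]
    congr 1
    · rw [mul_one_div_cancel hr, one_smul]
    · congr 1
      field_simp
  · dsimp only
    rw [one_div_one_div]

/-- an interior point of the fundamental chamber -/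
noncomputable def z00 : E 8 := WithLp.toLp 2 (![23 / 30, 6 / 30, 5 / 30, 4 / 30, 3 / 30, 2 / 30,
  1 / 30, 0])

theorem norm_z00 : ‖z00‖ ≤ 1 := by
  have h : ‖z00‖ ^ 2 ≤ 1 := by
    rw [EuclideanSpace.real_norm_sq_eq, Fin.sum_univ_eight]
    simp only [z00]
    simp
    norm_num
  nlinarith [norm_nonneg z00]

theorem exists_close (z : E 8) : ∃ v ∈ E8, ‖z + v‖ ≤ 3 := by
  refine ⟨hv (fun i => -4 * round (z i / 2)), hv_mem (Or.inl fun i => ?_) ?_, ?_⟩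
  · omega
  · rw [← Finset.mul_sum]
    omega
  · have h : ‖z + hv (fun i => -4 * round (z i / 2))‖ ^ 2 ≤ 8 := by
      rw [EuclideanSpace.real_norm_sq_eq]
      have : ∀ i ∈ (Finset.univ : Finset (Fin 8)),
          ((z + hv (fun i => -4 * round (z i / 2))) i) ^ 2 ≤ 1 := by
        intro i _
        rw [PiLp.add_apply, hv_apply]
        have h1 := abs_le.1 (abs_sub_round (z i / 2))
        push_cast
        obtain ⟨h2, h3⟩ := h1
        rw [sq_le_one_iff_abs_le_one, abs_le]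
        constructor <;> linarith
      calc _ ≤ ∑ i : Fin 8, (1 : ℝ) := Finset.sum_le_sum this
        _ = 8 := by simp
    nlinarith [norm_nonneg (z + hv (fun i => -4 * round (z i / 2)))]

theorem T_mem_E8 {v : E 8} (hv : v ∈ E8) : T v ∈ OL E8 := by
  obtain ⟨b, hb⟩ := evenLat_E8
  exact T_mem_OL hb hv

/-- highest point of the orbit, closest to `z00` among those -/
theorem exists_best {p : Pt 8} (hp : p ∈ UH 8)
    (hfin : ∀ C a : ℝ, 0 < a → {γ : OL E8 | ‖(act γ p).1‖ ≤ C ∧ a ≤ (act γ p).2}.Finite) :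
    ∃ γ ∈ OL E8, (∀ δ ∈ OL E8, (act δ p).2 ≤ (act γ p).2) ∧
      ∀ δ ∈ OL E8, (act δ p).2 = (act γ p).2 →
        ‖(act γ p).1 - z00‖ ≤ ‖(act δ p).1 - z00‖ := by
  have hr : 0 < p.2 := hp
  -- translates
  have htr : ∀ δ ∈ OL E8, ∃ δ' ∈ OL E8, ‖(act δ' p).1‖ ≤ 3 ∧ (act δ' p).2 = (act δ p).2 := by
    intro δ hδ
    obtain ⟨v, hv, hle⟩ := exists_close (act δ p).1
    refine ⟨T v * δ, (OL E8).mul_mem (T_mem_E8 hv) hδ, ?_⟩
    rw [act_mul (T v) hδ.1 hp, act_T v (act_mem hδ.1 hp)]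
    exact ⟨hle, rfl⟩
  set S : Set (OL E8) := {γ : OL E8 | ‖(act γ p).1‖ ≤ 5 ∧ p.2 ≤ (act γ p).2} with hS
  have hSf : S.Finite := hfin 5 p.2 hr
  have hact1 : act (1 : LV 8 ≃ₗ[ℝ] LV 8) p = p := Pool.Agent.Helper13.Lor.act_one hp
  have hSn : S.Nonempty := by
    obtain ⟨δ', hδ', h1, h2⟩ := htr 1 (OL E8).one_mem
    refine ⟨⟨δ', hδ'⟩, ?_, ?_⟩
    · exact h1.trans (by norm_num)
    · change p.2 ≤ (act δ' p).2
      rw [h2, hact1]
  obtain ⟨γ1, hγ1S, hγ1⟩ := Set.exists_max_image S (fun γ : OL E8 => (act γ p).2) hSf hSn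
  have hmax : ∀ δ ∈ OL E8, (act δ p).2 ≤ (act γ1 p).2 := by
    intro δ hδ
    rcases lt_or_ge (act δ p).2 p.2 with h | h
    · exact h.le.trans hγ1S.2
    · obtain ⟨δ', hδ', h1, h2⟩ := htr δ hδ
      have := hγ1 ⟨δ', hδ'⟩ ⟨h1.trans (by norm_num), by change p.2 ≤ (act δ' p).2; rw [h2]; exact h⟩
      change (act δ' p).2 ≤ (act γ1 p).2 at this
      rwa [h2] at this
  set S' : Set (OL E8) := {γ : OL E8 | γ ∈ S ∧ (act γ p).2 = (act γ1 p).2} with hS'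
  have hS'f : S'.Finite := hSf.subset (fun γ h => h.1)
  have hS'n : S'.Nonempty := ⟨γ1, hγ1S, rfl⟩
  obtain ⟨γ2, hγ2S, hγ2⟩ :=
    Set.exists_min_image S' (fun γ : OL E8 => ‖(act γ p).1 - z00‖) hS'f hS'n
  have hγ2h : (act γ2 p).2 = (act γ1 p).2 := hγ2S.2
  refine ⟨γ2, γ2.2, fun δ hδ => ?_, fun δ hδ hh => ?_⟩
  · rw [hγ2h]
    exact hmax δ hδ
  · by_contra hc
    push Not at hc
    rw [hγ2h] at hh
    obtain ⟨δ', hδ', h1, h2⟩ := htr δ hδ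
    have h3 := hγ2 ⟨δ', hδ'⟩ ⟨⟨h1.trans (by norm_num), by
      change p.2 ≤ (act δ' p).2; rw [h2, hh]; exact hγ1S.2⟩, by
      change (act δ' p).2 = _; rw [h2, hh]⟩
    change ‖(act γ2 p).1 - z00‖ ≤ ‖(act δ' p).1 - z00‖ at h3
    have h4 : ‖(act δ' p).1 - z00‖ ≤ 4 := by
      calc _ ≤ ‖(act δ' p).1‖ + ‖z00‖ := norm_sub_le _ _
        _ ≤ 4 := by linarith [norm_z00]
    have h5 : ‖(act δ p).1‖ ≤ 5 := by
      calc ‖(act δ p).1‖ = ‖((act δ p).1 - z00) + z00‖ := by rw [sub_add_cancel]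
        _ ≤ ‖(act δ p).1 - z00‖ + ‖z00‖ := norm_add_le _ _
        _ ≤ 5 := by linarith [norm_z00]
    have h6 := hγ2 ⟨δ, hδ⟩ ⟨⟨h5, by
      change p.2 ≤ (act δ p).2; rw [hh]; exact hγ1S.2⟩, hh⟩
    change ‖(act γ2 p).1 - z00‖ ≤ ‖(act δ p).1 - z00‖ at h6
    linarith

/-- the chamber inequalities -/
theorem root_ineq {q : Pt 8} (hq : q ∈ UH 8)
    (hmin : ∀ δ ∈ OL E8, (act δ q).2 = q.2 → ‖q.1 - z00‖ ≤ ‖(act δ q).1 - z00‖)
    (A : Fin 8 → ℤ) (h1 : (∀ i, A i % 2 = 0) ∨ (∀ i, A i % 2 = 1)) (h2 : (∑ i, A i) % 4 = 0)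
    (h3 : ∑ i, A i ^ 2 = 8) :
    0 ≤ (inner ℝ q.1 (hv A) : ℝ) * inner ℝ z00 (hv A) := by
  have hn := norm_hv A h3
  have h := hmin _ (Rf_mem hn (hv_mem h1 h2)) (by rw [act_Rf _ _ hq])
  rw [act_Rf _ _ hq] at h
  dsimp only at h
  set c : ℝ := inner ℝ q.1 (hv A) with hc
  have e : ‖q.1 - c • hv A - z00‖ ^ 2 = ‖q.1 - z00‖ ^ 2 + 2 * (c * inner ℝ z00 (hv A)) := by
    have : q.1 - c • hv A - z00 = (q.1 - z00) - c • hv A := by abel
    rw [this, norm_sub_sq_real, real_inner_smul_right, inner_sub_left, ← hc, norm_smul, mul_pow, hn,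
      Real.norm_eq_abs, sq_abs]
    ring
  have h4 : ‖q.1 - z00‖ ^ 2 ≤ ‖q.1 - c • hv A - z00‖ ^ 2 := by
    have := norm_nonneg (q.1 - z00)
    nlinarith
  rw [e] at h4
  linarith

/-- the affine chamber inequality -/
theorem root_ineq' {q : Pt 8} (hq : q ∈ UH 8)
    (hmin : ∀ δ ∈ OL E8, (act δ q).2 = q.2 → ‖q.1 - z00‖ ≤ ‖(act δ q).1 - z00‖)
    (A : Fin 8 → ℤ) (h1 : (∀ i, A i % 2 = 0) ∨ (∀ i, A i % 2 = 1)) (h2 : (∑ i, A i) % 4 = 0)
    (h3 : ∑ i, A i ^ 2 = 8) :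
    0 ≤ ((inner ℝ q.1 (hv A) : ℝ) - 1) * (inner ℝ z00 (hv A) - 1) := by
  have hn := norm_hv A h3
  have hRf := Rf_mem hn (hv_mem h1 h2)
  have ha : act (T (hv A) * Rf (hv A) hn) q =
      (q.1 - (inner ℝ q.1 (hv A) : ℝ) • hv A + hv A, q.2) := by
    rw [act_mul _ hRf.1 hq, act_T _ (act_mem hRf.1 hq), act_Rf _ _ hq]
  have h := hmin _ ((OL E8).mul_mem (T_mem_E8 (hv_mem h1 h2)) hRf) (by rw [ha])
  rw [ha] at h
  dsimp only at h
  set c : ℝ := inner ℝ q.1 (hv A) with hc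
  have e : ‖q.1 - c • hv A + hv A - z00‖ ^ 2 =
      ‖q.1 - z00‖ ^ 2 + 2 * ((c - 1) * (inner ℝ z00 (hv A) - 1)) := by
    have : q.1 - c • hv A + hv A - z00 = (q.1 - z00) - (c - 1) • hv A := by
      module
    rw [this, norm_sub_sq_real, real_inner_smul_right, inner_sub_left, ← hc, norm_smul, mul_pow, hn,
      Real.norm_eq_abs, sq_abs]
    ring
  have h4 : ‖q.1 - z00‖ ^ 2 ≤ ‖q.1 - c • hv A + hv A - z00‖ ^ 2 := by
    have := norm_nonneg (q.1 - z00)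
    nlinarith
  rw [e] at h4
  linarith

/-- the alcove is contained in the union of simplex and cross polytope -/
theorem alcove (z : Fin 8 → ℝ) (h0 : z 0 + z 1 ≤ 1) (h1 : z 2 ≤ z 1) (h2 : z 3 ≤ z 2)
    (h3 : z 4 ≤ z 3) (h4 : z 5 ≤ z 4) (h5 : z 6 ≤ z 5) (h6 : z 7 ≤ z 6) (h7 : 0 ≤ z 6 + z 7)
    (h8 : z 1 + z 2 + z 3 + z 4 + z 5 + z 6 ≤ z 0 + z 7) :
    (|z 0 - 1| + |z 1| + |z 2| + |z 3| + |z 4| + |z 5| + |z 6| + |z 7| ≤ 1) ∨
       ∃ l : Fin 9 → ℝ, (∀ j, 0 ≤ l j) ∧ l 0 + l 1 + l 2 + l 3 + l 4 + l 5 + l 6 + l 7 + l 8 = 1 ∧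
        z 0 = l 1 + l 2 + l 3 + l 4 + l 5 + l 6 + l 7 + l 8 / 2 ∧
        z 1 = l 1 + l 8 / 2 ∧ z 2 = l 2 + l 8 / 2 ∧ z 3 = l 3 + l 8 / 2 ∧ z 4 = l 4 + l 8 / 2 ∧
        z 5 = l 5 + l 8 / 2 ∧ z 6 = l 6 + l 8 / 2 ∧ z 7 = l 7 + l 8 / 2 := by
  rcases le_or_gt (z 1 + z 2 + z 3 + z 4 + z 5 + z 6 + z 7) (z 0) with h | h
  · left
    have e1 : |z 0 - 1| = 1 - z 0 := by
      rw [abs_of_nonpos (by linarith)]
      ring
    rw [e1, abs_of_nonneg (show 0 ≤ z 1 by linarith), abs_of_nonneg (show 0 ≤ z 2 by linarith),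
      abs_of_nonneg (show 0 ≤ z 3 by linarith), abs_of_nonneg (show 0 ≤ z 4 by linarith),
      abs_of_nonneg (show 0 ≤ z 5 by linarith), abs_of_nonneg (show 0 ≤ z 6 by linarith)]
    rcases abs_cases (z 7) with ⟨e, _⟩ | ⟨e, _⟩ <;> rw [e] <;> linarith
  · right
    have h9 : 0 < z 7 := by linarith
    set L : ℝ := (z 1 + z 2 + z 3 + z 4 + z 5 + z 6 + z 7 - z 0) / 3 with hL
    have hL0 : 0 < L := by rw [hL]; linarith
    have hL7 : 0 ≤ z 7 - L / 2 := by rw [hL]; linarith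
    refine ⟨![1 - z 0 - L / 2, z 1 - L / 2, z 2 - L / 2, z 3 - L / 2, z 4 - L / 2, z 5 - L / 2,
      z 6 - L / 2, z 7 - L / 2, L], ?_, ?_, ?_, ?_, ?_, ?_, ?_, ?_, ?_, ?_⟩
    · intro j
      fin_cases j
      · change 0 ≤ 1 - z 0 - L / 2
        linarith
      · change 0 ≤ z 1 - L / 2
        linarith
      · change 0 ≤ z 2 - L / 2
        linarith
      · change 0 ≤ z 3 - L / 2
        linarith
      · change 0 ≤ z 4 - L / 2
        linarith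
      · change 0 ≤ z 5 - L / 2
        linarith
      · change 0 ≤ z 6 - L / 2
        linarith
      · change 0 ≤ z 7 - L / 2
        linarith
      · change 0 ≤ L
        linarith
    · change 1 - z 0 - L / 2 + (z 1 - L / 2) + (z 2 - L / 2) + (z 3 - L / 2) + (z 4 - L / 2) +
        (z 5 - L / 2) + (z 6 - L / 2) + (z 7 - L / 2) + L = 1
      rw [hL]; ring
    · change z 0 = z 1 - L / 2 + (z 2 - L / 2) + (z 3 - L / 2) + (z 4 - L / 2) +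
        (z 5 - L / 2) + (z 6 - L / 2) + (z 7 - L / 2) + L / 2
      rw [hL]; ring
    · change z 1 = z 1 - L / 2 + L / 2
      ring
    · change z 2 = z 2 - L / 2 + L / 2
      ring
    · change z 3 = z 3 - L / 2 + L / 2
      ring
    · change z 4 = z 4 - L / 2 + L / 2
      ring
    · change z 5 = z 5 - L / 2 + L / 2
      ring
    · change z 6 = z 6 - L / 2 + L / 2
      ring
    · change z 7 = z 7 - L / 2 + L / 2
      ring

/-- the statement of the module DISC used here -/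
def LocFin : Prop := ∀ {n : ℕ} {L : AddSubgroup (E n)} {b : Fin n → E n} (_ : EvenLat L b)
    {p : Pt n} (_ : p ∈ UH n) (C a : ℝ) (_ : 0 < a),
    ∃ U ∈ 𝓝 p, U ⊆ UH n ∧
      {γ : OL L | ∃ q ∈ U, ‖(act γ q).1‖ ≤ C ∧ a ≤ (act γ q).2}.Finite

theorem reduce_E8_aux (hLF : LocFin) {p : Pt 8} (hp : p ∈ UH 8) : ∃ γ ∈ OL E8,
    (∀ w ∈ Orb E8, 1 / (act γ p).2 ≤ uval w (act γ p)) ∧ ∃ z : Fin 8 → ℝ,
    (∀ i, z i = (act γ p).1 i) ∧
      ((|z 0 - 1| + |z 1| + |z 2| + |z 3| + |z 4| + |z 5| + |z 6| + |z 7| ≤ 1) ∨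
       ∃ l : Fin 9 → ℝ, (∀ j, 0 ≤ l j) ∧ l 0 + l 1 + l 2 + l 3 + l 4 + l 5 + l 6 + l 7 + l 8 = 1 ∧
        z 0 = l 1 + l 2 + l 3 + l 4 + l 5 + l 6 + l 7 + l 8 / 2 ∧
        z 1 = l 1 + l 8 / 2 ∧ z 2 = l 2 + l 8 / 2 ∧ z 3 = l 3 + l 8 / 2 ∧ z 4 = l 4 + l 8 / 2 ∧
        z 5 = l 5 + l 8 / 2 ∧ z 6 = l 6 + l 8 / 2 ∧ z 7 = l 7 + l 8 / 2) := by
  obtain ⟨b, hb⟩ := evenLat_E8
  obtain ⟨γ, hγ, hmax, hmin⟩ := exists_best hp (fun C a ha => by
    obtain ⟨U, hU, _, hf⟩ := hLF hb hp C a ha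
    exact hf.subset (fun δ h => ⟨p, mem_of_mem_nhds hU, h⟩))
  have hq : act γ p ∈ UH 8 := act_mem hγ.1 hp
  have hr : 0 < (act γ p).2 := hq
  refine ⟨γ, hγ, ?_, fun i => (act γ p).1 i, fun i => rfl, ?_⟩
  · rintro w ⟨δ, hδ, rfl⟩
    have hδ' : δ⁻¹ ∈ OL E8 := (OL E8).inv_mem hδ
    have h1 := uval_act hδ'.1 w0 hq
    rw [inv_inv] at h1
    rw [← h1, uval_w0 (act_mem hδ'.1 hq), ← act_mul _ hγ.1 hp]
    have h2 := hmax (δ⁻¹ * γ) ((OL E8).mul_mem hδ' hγ)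
    have h3 : 0 < (act (δ⁻¹ * γ) p).2 := act_mem ((OL E8).mul_mem hδ' hγ).1 hp
    exact one_div_le_one_div_of_le h3 h2
  · have hmin' : ∀ δ ∈ OL E8, (act δ (act γ p)).2 = (act γ p).2 →
        ‖(act γ p).1 - z00‖ ≤ ‖(act δ (act γ p)).1 - z00‖ := by
      intro δ hδ h
      rw [← act_mul _ hγ.1 hp] at h ⊢
      exact hmin _ ((OL E8).mul_mem hδ hγ) h
    set q := act γ p with hqdef
    have k1 := root_ineq hq hmin' ![0, 2, -2, 0, 0, 0, 0, 0] (Or.inl (by decide)) (by decide)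
      (by decide)
    have k2 := root_ineq hq hmin' ![0, 0, 2, -2, 0, 0, 0, 0] (Or.inl (by decide)) (by decide)
      (by decide)
    have k3 := root_ineq hq hmin' ![0, 0, 0, 2, -2, 0, 0, 0] (Or.inl (by decide)) (by decide)
      (by decide)
    have k4 := root_ineq hq hmin' ![0, 0, 0, 0, 2, -2, 0, 0] (Or.inl (by decide)) (by decide)
      (by decide)
    have k5 := root_ineq hq hmin' ![0, 0, 0, 0, 0, 2, -2, 0] (Or.inl (by decide)) (by decide)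
      (by decide)
    have k6 := root_ineq hq hmin' ![0, 0, 0, 0, 0, 0, 2, -2] (Or.inl (by decide)) (by decide)
      (by decide)
    have k7 := root_ineq hq hmin' ![0, 0, 0, 0, 0, 0, 2, 2] (Or.inl (by decide)) (by decide)
      (by decide)
    have k8 := root_ineq hq hmin' ![1, -1, -1, -1, -1, -1, -1, 1] (Or.inr (by decide)) (by decide)
      (by decide)
    have k0 := root_ineq' hq hmin' ![2, 2, 0, 0, 0, 0, 0, 0] (Or.inl (by decide)) (by decide)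
      (by decide)
    rw [inner_hv, inner_hv, Fin.sum_univ_eight, Fin.sum_univ_eight] at k0 k1 k2 k3 k4 k5 k6 k7 k8
    simp [z00] at k0 k1 k2 k3 k4 k5 k6 k7 k8
    apply alcove <;> linarith

/-- consequences at a reduced point -/
theorem reduced_bounds {q : Pt 8} (hq : q ∈ UH 8)
    (hmin : ∀ w ∈ Orb E8, 1 / q.2 ≤ uval w q) {z : Fin 8 → ℝ} (hz : ∀ i, z i = q.1 i)
    (hcase : (|z 0 - 1| + |z 1| + |z 2| + |z 3| + |z 4| + |z 5| + |z 6| + |z 7| ≤ 1) ∨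
       ∃ l : Fin 9 → ℝ, (∀ j, 0 ≤ l j) ∧ l 0 + l 1 + l 2 + l 3 + l 4 + l 5 + l 6 + l 7 + l 8 = 1 ∧
        z 0 = l 1 + l 2 + l 3 + l 4 + l 5 + l 6 + l 7 + l 8 / 2 ∧
        z 1 = l 1 + l 8 / 2 ∧ z 2 = l 2 + l 8 / 2 ∧ z 3 = l 3 + l 8 / 2 ∧ z 4 = l 4 + l 8 / 2 ∧
        z 5 = l 5 + l 8 / 2 ∧ z 6 = l 6 + l 8 / 2 ∧ z 7 = l 7 + l 8 / 2) :
    ‖q.1‖ ≤ 3 ∧ 1 ≤ q.2 := by
  have hr : 0 < q.2 := hq
  have hcon : ∀ v ∈ E8, 2 ≤ ‖q.1 - v‖ ^ 2 + q.2 ^ 2 := by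
    intro v hv
    have h := hmin _ (wv_mem (fun h => T_mem_E8 h) hv)
    rw [uval_wv v hq, div_le_div_iff₀ hr (by positivity)] at h
    nlinarith
  have hfin : ∀ v : E 8, ‖v‖ ≤ 2 → ‖q.1 - v‖ ^ 2 ≤ 1 → ‖q.1‖ ≤ 3 := by
    intro v h1 h2
    have h3 : ‖q.1 - v‖ ≤ 1 := by nlinarith [norm_nonneg (q.1 - v)]
    calc ‖q.1‖ = ‖(q.1 - v) + v‖ := by rw [sub_add_cancel]
      _ ≤ ‖q.1 - v‖ + ‖v‖ := norm_add_le _ _
      _ ≤ 3 := by linarith
  have hnv : ∀ A : Fin 8 → ℤ, ∑ i, A i ^ 2 ≤ 16 → ‖hv A‖ ≤ 2 := by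
    intro A hA
    have h1 : ‖hv A‖ ^ 2 ≤ 4 := by
      rw [EuclideanSpace.real_norm_sq_eq]
      have h1 : ∑ i, (hv A i) ^ 2 = ((∑ i, A i ^ 2 : ℤ) : ℝ) / 4 := by
        push_cast
        rw [Finset.sum_div]
        refine Finset.sum_congr rfl (fun i _ => ?_)
        rw [hv_apply]
        ring
      rw [h1]
      have : ((∑ i, A i ^ 2 : ℤ) : ℝ) ≤ 16 := by exact_mod_cast hA
      linarith
    nlinarith [norm_nonneg (hv A)]
  suffices h : ∃ A : Fin 8 → ℤ, ∑ i, A i ^ 2 ≤ 16 ∧ hv A ∈ E8 ∧ ‖q.1 - hv A‖ ^ 2 ≤ 1 by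
    obtain ⟨A, h1, h2, h3⟩ := h
    refine ⟨hfin _ (hnv A h1) h3, ?_⟩
    have := hcon _ h2
    nlinarith
  rcases hcase with hc | ⟨l, hl, hsum, h0, h1, h2, h3, h4, h5, h6, h7⟩
  · set Y : Fin 8 → ℝ := fun i => q.1 i - if i = 0 then 1 else 0 with hY
    have hS1 : ∑ i, |Y i| ≤ 1 := by
      rw [Fin.sum_univ_eight]
      simp only [hY, ← hz]
      simpa using hc
    obtain ⟨i0, hi0⟩ := Finite.exists_max (fun i => |Y i|)
    have e1 : ∑ i, (Y i) ^ 2 ≤ |Y i0| := by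
      calc ∑ i, (Y i) ^ 2 = ∑ i, |Y i| * |Y i| := by
            refine Finset.sum_congr rfl (fun i _ => ?_)
            rw [← sq, sq_abs]
        _ ≤ ∑ i, |Y i0| * |Y i| := Finset.sum_le_sum (fun i _ =>
            mul_le_mul_of_nonneg_right (hi0 i) (abs_nonneg _))
        _ = |Y i0| * ∑ i, |Y i| := by rw [Finset.mul_sum]
        _ ≤ |Y i0| * 1 := mul_le_mul_of_nonneg_left hS1 (abs_nonneg _)
        _ = |Y i0| := mul_one _
    have hD : ∀ a : Fin 8 × Bool, ‖q.1 - hv (AC a)‖ ^ 2 =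
        1 + ∑ i, (Y i) ^ 2 - 2 * (if a.2 then 1 else -1) * Y a.1 := fun a => dist_AC a
    have hsq : ∀ a : Fin 8 × Bool, ∑ i, AC a i ^ 2 ≤ 16 := by decide
    rcases le_total 0 (Y i0) with h | h
    · refine ⟨AC (i0, true), hsq _, hv_mem (AC_par _) (AC_sum _), ?_⟩
      rw [hD]
      rw [abs_of_nonneg h] at e1
      simp only [if_true]
      linarith
    · refine ⟨AC (i0, false), hsq _, hv_mem (AC_par _) (AC_sum _), ?_⟩
      rw [hD]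
      rw [abs_of_nonpos h] at e1
      simp only [Bool.false_eq_true, if_false]
      linarith
  · rw [hz] at h0 h1 h2 h3 h4 h5 h6 h7
    have hD : ∀ j, ‖q.1 - hv (AS j)‖ ^ 2 = 1 + ∑ i, (l i) ^ 2 - 2 * l j := fun j =>
      dist_AS hsum h0 h1 h2 h3 h4 h5 h6 h7 j
    have hsum' : ∑ j, l j = 1 := by
      rw [Fin.sum_univ_castSucc, Fin.sum_univ_eight]
      exact hsum
    obtain ⟨j0, hj0⟩ := Finite.exists_max l
    have e1 : ∑ i, (l i) ^ 2 ≤ l j0 := by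
      calc ∑ i, (l i) ^ 2 = ∑ i, l i * l i := Finset.sum_congr rfl (fun i _ => sq _)
        _ ≤ ∑ i, l j0 * l i := Finset.sum_le_sum (fun i _ =>
            mul_le_mul_of_nonneg_right (hj0 i) (hl i))
        _ = l j0 := by rw [← Finset.mul_sum, hsum', mul_one]
    have hsq : ∀ j : Fin 9, ∑ i, AS j i ^ 2 ≤ 16 := by decide
    refine ⟨AS j0, hsq _, hv_mem (AS_par _) (AS_sum _), ?_⟩
    rw [hD]
    have := hl j0
    linarith

theorem covers_E8_aux (hLF : LocFin) : Covers E8 3 1 := by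
  intro p hp
  obtain ⟨γ, hγ, hmin, z, hz, hcase⟩ := reduce_E8_aux hLF hp
  exact ⟨γ, hγ, reduced_bounds (act_mem hγ.1 hp) hmin hz hcase⟩

end Pool.Agent.Helper86.Lor
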